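import Pool.Agent.Q74.PD.Stm9

/-! # Project PD of helper74, job Tln: Markov bound and tail of `Dn` -/

set_option autoImplicit false

namespace Pool.Agent.Q224.PD

open Finset Filter Topology MeasureTheory
open Pool.Agent.H499R2.ND Pool.Agent.H320R2.PD Pool.Agent.Y856.PD
open Pool.Agent.Q74.PD

/-- the mean of `3^i / 2^(S_i)` -/
theorem mean_i (cap n i : ℕ) (hi : i ≤ n) :
    ∑ w ∈ FW cap n, wwt w * ((3 : ℝ) ^ i / 2 ^ (w.take i).sum) ≤ 1 := by
  obtain ⟨k, rfl⟩ := Nat.exists_eq_add_of_le hi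
  rw [sum_FW_add]
  have h1 : ∀ u ∈ FW cap i, ∑ v ∈ FW cap k, wwt (u ++ v) * ((3 : ℝ) ^ i / 2 ^ ((u ++ v).take i).sum)
      ≤ 3 ^ i * (1 / 4 : ℝ) ^ u.sum := by
    intro u hu
    have hl : u.length = i := (mem_FW.mp hu).1
    have h2 : ∀ v ∈ FW cap k, wwt (u ++ v) * ((3 : ℝ) ^ i / 2 ^ ((u ++ v).take i).sum)
        = 3 ^ i * (1 / 4 : ℝ) ^ u.sum * wwt v := by
      intro v _
      rw [List.take_left' hl, wwt_append]
      have h4 : wwt u = (1 / 2 : ℝ) ^ u.sum := rfl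
      have h5 : (1 / 4 : ℝ) ^ u.sum = (1 / 2 : ℝ) ^ u.sum * (1 / 2 : ℝ) ^ u.sum := by
        rw [← mul_pow]; norm_num
      have h6 : (3 : ℝ) ^ i / 2 ^ u.sum = 3 ^ i * (1 / 2 : ℝ) ^ u.sum := by
        rw [one_div, inv_pow, div_eq_mul_inv]
      rw [h4, h5, h6]; ring
    rw [sum_congr rfl h2, ← mul_sum]
    have h7 := sum_wwt_le cap k
    have h8 : (0 : ℝ) ≤ 3 ^ i * (1 / 4 : ℝ) ^ u.sum := by positivity
    calc 3 ^ i * (1 / 4 : ℝ) ^ u.sum * ∑ v ∈ FW cap k, wwt v ≤ 3 ^ i * (1 / 4 : ℝ) ^ u.sum * 1 :=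
          mul_le_mul_of_nonneg_left h7 h8
      _ = _ := mul_one _
  refine (sum_le_sum h1).trans ?_
  rw [← mul_sum, sum_pow]
  have h7 : ∑ e ∈ Icc 1 cap, (1 / 4 : ℝ) ^ e ≤ 1 / 3 := by
    have := sum_Icc_pow_le cap (r := (1 / 4 : ℝ)) (by norm_num) (by norm_num)
    norm_num at this ⊢
    exact this
  have h8 : (∑ e ∈ Icc 1 cap, (1 / 4 : ℝ) ^ e) ^ i ≤ (1 / 3) ^ i :=
    pow_le_pow_left₀ (sum_nonneg fun e _ => by positivity) h7 i
  calc (3 : ℝ) ^ i * (∑ e ∈ Icc 1 cap, (1 / 4 : ℝ) ^ e) ^ i ≤ 3 ^ i * (1 / 3) ^ i :=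
        mul_le_mul_of_nonneg_left h8 (by positivity)
    _ = 1 := by rw [← mul_pow]; norm_num

/-- JOB Mkv -/
theorem mkv : S_Mkv := by
  classical
  intro cap n L hL
  have h1 : ∀ w ∈ FW cap n, (if ∃ i ∈ Icc 1 n, L * 2 ^ (w.take i).sum < (3 : ℝ) ^ i then wwt w else 0)
      ≤ ∑ i ∈ Icc 1 n, (1 / L) * (wwt w * ((3 : ℝ) ^ i / 2 ^ (w.take i).sum)) := by
    intro w _
    have hnn : ∀ i ∈ Icc 1 n, 0 ≤ (1 / L) * (wwt w * ((3 : ℝ) ^ i / 2 ^ (w.take i).sum)) := by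
      intro i _
      have := wwt_nonneg w
      positivity
    split_ifs with h
    · obtain ⟨i, hi, h2⟩ := h
      refine le_trans ?_ (single_le_sum hnn hi)
      have h3 : 1 ≤ (1 / L) * ((3 : ℝ) ^ i / 2 ^ (w.take i).sum) := by
        rw [div_mul_div_comm, one_mul, le_div_iff₀ (by positivity), one_mul]
        exact h2.le
      calc wwt w = wwt w * 1 := (mul_one _).symm
        _ ≤ wwt w * ((1 / L) * ((3 : ℝ) ^ i / 2 ^ (w.take i).sum)) :=
            mul_le_mul_of_nonneg_left h3 (wwt_nonneg w)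
        _ = _ := by ring
    · exact sum_nonneg hnn
  refine (sum_le_sum h1).trans ?_
  rw [sum_comm]
  have h2 : ∀ i ∈ Icc 1 n, ∑ w ∈ FW cap n, (1 / L) * (wwt w * ((3 : ℝ) ^ i / 2 ^ (w.take i).sum)) ≤ 1 / L := by
    intro i hi
    rw [← mul_sum]
    have h3 := mean_i cap n i (mem_Icc.mp hi).2
    have h4 : 0 ≤ 1 / L := by positivity
    calc (1 / L) * ∑ w ∈ FW cap n, wwt w * ((3 : ℝ) ^ i / 2 ^ (w.take i).sum) ≤ (1 / L) * 1 :=
          mul_le_mul_of_nonneg_left h3 h4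
      _ = _ := mul_one _
  refine (sum_le_sum h2).trans ?_
  rw [sum_const, Nat.card_Icc, nsmul_eq_mul]
  apply le_of_eq
  rw [Nat.add_sub_cancel]; ring

open Classical in
/-- valid words which are not typical -/
noncomputable def Rc (d : ℤ) (cap n : ℕ) (L : ℝ) (b : ℤ) : ℝ :=
  ∑ w ∈ FW cap n, (if (3 : ℤ) ^ n ∣ 2 ^ w.sum * b - d * Wo w ∧
    ∃ i ∈ Icc 1 n, L * 2 ^ (w.take i).sum < (3 : ℝ) ^ i then (3 : ℝ) ^ n * wwt w else 0)

theorem Dc_le (hS : S_Sup) (d : ℤ) (hd : IsCoprime d 3) (cap n : ℕ) (hn : 1 ≤ n) (L : ℝ) (hL : 1 ≤ L) (b : ℤ) :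
    Dc d cap n b ≤ 6 * (n : ℝ) ^ 3 * L + Rc d cap n L b := by
  classical
  refine le_trans ?_ (add_le_add_left (hS d hd cap n hn L hL b) _)
  unfold Dc Rc
  rw [← sum_add_distrib]
  refine sum_le_sum fun w _ => ?_
  have h0 : (0 : ℝ) ≤ 3 ^ n * wwt w := by have := wwt_nonneg w; positivity
  by_cases hv : (3 : ℤ) ^ n ∣ 2 ^ w.sum * b - d * Wo w
  · rw [if_pos hv]
    by_cases hg : ∀ i ∈ Icc 1 n, (3 : ℝ) ^ i ≤ L * 2 ^ (w.take i).sum
    · rw [if_pos ⟨hv, hg⟩]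
      split_ifs <;> linarith
    · have hb : ∃ i ∈ Icc 1 n, L * 2 ^ (w.take i).sum < (3 : ℝ) ^ i := by
        push Not at hg
        exact hg
      rw [if_neg (fun h => hg h.2), if_pos ⟨hv, hb⟩]
      linarith
  · rw [if_neg hv]
    split_ifs <;> linarith

theorem sum_Rc (hM : S_Mkv) (d : ℤ) (cap n : ℕ) (L : ℝ) (hL : 0 < L) :
    ∑ b ∈ range (3 ^ n), Rc d cap n L b ≤ 3 ^ n * (n / L) := by
  classical
  unfold Rc
  rw [sum_comm]
  have h1 : ∀ w ∈ FW cap n, ∑ b ∈ range (3 ^ n), (if (3 : ℤ) ^ n ∣ 2 ^ w.sum * (b : ℤ) - d * Wo w ∧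
      ∃ i ∈ Icc 1 n, L * 2 ^ (w.take i).sum < (3 : ℝ) ^ i then (3 : ℝ) ^ n * wwt w else 0)
      = 3 ^ n * (if ∃ i ∈ Icc 1 n, L * 2 ^ (w.take i).sum < (3 : ℝ) ^ i then wwt w else 0) := by
    intro w _
    by_cases hb : ∃ i ∈ Icc 1 n, L * 2 ^ (w.take i).sum < (3 : ℝ) ^ i
    · have h2 : ∀ b : ℕ, ((3 : ℤ) ^ n ∣ 2 ^ w.sum * (b : ℤ) - d * Wo w ∧
          ∃ i ∈ Icc 1 n, L * 2 ^ (w.take i).sum < (3 : ℝ) ^ i) ↔ (3 : ℤ) ^ n ∣ 2 ^ w.sum * (b : ℤ) - d * Wo w :=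
        fun b => ⟨fun h => h.1, fun h => ⟨h, hb⟩⟩
      simp only [h2]
      rw [if_pos hb, ← sum_filter, sum_const, unique_class, one_smul]
    · have h2 : ∀ b : ℕ, ¬ ((3 : ℤ) ^ n ∣ 2 ^ w.sum * (b : ℤ) - d * Wo w ∧
          ∃ i ∈ Icc 1 n, L * 2 ^ (w.take i).sum < (3 : ℝ) ^ i) := fun b h => hb h.2
      rw [if_neg hb, mul_zero]
      exact sum_eq_zero fun b _ => if_neg (h2 b)
  rw [sum_congr rfl h1, ← mul_sum]
  exact mul_le_mul_of_nonneg_left (hM cap n L hL) (by positivity)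

theorem Rc_nonneg (d : ℤ) (cap n : ℕ) (L : ℝ) (b : ℤ) : 0 ≤ Rc d cap n L b := by
  classical
  unfold Rc
  refine sum_nonneg fun w _ => ?_
  have := wwt_nonneg w
  split_ifs <;> positivity

/-- JOB Tln -/
theorem tln (hM : S_Mkv) (hS : S_Sup) (hD : S_Dlm) : S_Tln := by
  classical
  intro d hd n hn t ht
  have hn1 : (1 : ℝ) ≤ n := by exact_mod_cast hn
  have hn0 : (0 : ℝ) < n := by linarith
  have h3 : (0 : ℝ) < 3 ^ n := by positivity
  have hmean : ∑ b ∈ range (3 ^ n), Dn d n b = 3 ^ n := by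
    have h := (hD d hd 0).2.2 n 0
    simp only [Nat.zero_add, pow_zero, one_mul, zero_add] at h
    rw [h]
    simp [Dn]
  have hDn0 : ∀ b : ℤ, 0 ≤ Dn d n b := fun b => ((hD d hd n).1 0 b).1.trans ((hD d hd n).1 0 b).2.1
  rcases lt_or_ge t (24 * (n : ℝ) ^ 3) with hlt | hge
  · calc ∑ b ∈ range (3 ^ n), (if t < Dn d n b then Dn d n b else 0) ≤ ∑ b ∈ range (3 ^ n), Dn d n b := by
          refine sum_le_sum fun b _ => ?_
          split_ifs
          · exact le_rfl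
          · exact hDn0 _
      _ = 1 * 3 ^ n := by rw [hmean, one_mul]
      _ ≤ _ := by
          refine mul_le_mul_of_nonneg_right ?_ h3.le
          rw [le_div_iff₀ ht, one_mul]
          have h4 : (n : ℝ) ^ 3 ≤ (n : ℝ) ^ 4 := pow_le_pow_right₀ hn1 (by norm_num)
          have h5 : (0 : ℝ) ≤ (n : ℝ) ^ 4 := by positivity
          linarith
  · set L : ℝ := t / (24 * (n : ℝ) ^ 3) with hLdef
    have hL1 : 1 ≤ L := by rw [hLdef, le_div_iff₀ (by positivity), one_mul]; exact hge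
    have hL0 : 0 < L := by linarith
    have h6 : 6 * (n : ℝ) ^ 3 * L = t / 4 := by
      rw [hLdef]; field_simp; ring
    -- bound for each cap
    have hcap : ∀ cap : ℕ, ∑ b ∈ range (3 ^ n), (if t < Dc d cap n b then Dc d cap n b else 0) ≤
        32 * (n : ℝ) ^ 4 / t * 3 ^ n := by
      intro cap
      calc ∑ b ∈ range (3 ^ n), (if t < Dc d cap n b then Dc d cap n b else 0)
          ≤ ∑ b ∈ range (3 ^ n), (4 / 3) * Rc d cap n L b := by
            refine sum_le_sum fun b _ => ?_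
            have h7 := Dc_le hS d hd cap n hn L hL1 b
            rw [h6] at h7
            have h8 := Rc_nonneg d cap n L b
            split_ifs with h <;> linarith
        _ = (4 / 3) * ∑ b ∈ range (3 ^ n), Rc d cap n L b := by rw [mul_sum]
        _ ≤ (4 / 3) * (3 ^ n * (n / L)) := by
            refine mul_le_mul_of_nonneg_left (sum_Rc hM d cap n L hL0) (by norm_num)
        _ = 32 * (n : ℝ) ^ 4 / t * 3 ^ n := by
            rw [hLdef]; field_simp; ring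
    -- the limit
    have hev : ∀ b ∈ range (3 ^ n), ∀ᶠ cap : ℕ in atTop, (if t < Dn d n b then Dn d n b else 0) ≤
        (if t < Dc d cap n b then Dc d cap n b else 0) + 3 ^ n * n * (1 / 2 : ℝ) ^ cap := by
      intro b _
      by_cases hb : t < Dn d n b
      · have htend : Tendsto (fun cap : ℕ => Dn d n b - 3 ^ n * n * (1 / 2 : ℝ) ^ cap) atTop
            (𝓝 (Dn d n b - 3 ^ n * n * 0)) := by
          refine Tendsto.sub tendsto_const_nhds (Tendsto.const_mul _ ?_)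
          exact tendsto_pow_atTop_nhds_zero_of_lt_one (by norm_num) (by norm_num)
        rw [mul_zero, sub_zero] at htend
        filter_upwards [htend.eventually (lt_mem_nhds hb)] with cap hc
        have h9 := ((hD d hd n).1 cap b).2.2.2
        rw [if_pos hb, if_pos (by linarith)]
        exact h9
      · refine Eventually.of_forall fun cap => ?_
        rw [if_neg hb]
        have h9 := ((hD d hd n).1 cap b).1
        have h10 : (0 : ℝ) ≤ 3 ^ n * n * (1 / 2 : ℝ) ^ cap := by positivity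
        split_ifs <;> linarith
    have hev2 : ∀ᶠ cap : ℕ in atTop, ∑ b ∈ range (3 ^ n), (if t < Dn d n b then Dn d n b else 0) ≤
        32 * (n : ℝ) ^ 4 / t * 3 ^ n + 3 ^ n * (3 ^ n * n * (1 / 2 : ℝ) ^ cap) := by
      have h11 := (eventually_all_finset (range (3 ^ n))).mpr hev
      filter_upwards [h11] with cap hc
      calc ∑ b ∈ range (3 ^ n), (if t < Dn d n b then Dn d n b else 0)
          ≤ ∑ b ∈ range (3 ^ n), ((if t < Dc d cap n b then Dc d cap n b else 0) + 3 ^ n * n * (1 / 2 : ℝ) ^ cap) :=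
            sum_le_sum hc
        _ = ∑ b ∈ range (3 ^ n), (if t < Dc d cap n b then Dc d cap n b else 0)
            + 3 ^ n * (3 ^ n * n * (1 / 2 : ℝ) ^ cap) := by
            rw [sum_add_distrib, sum_const, card_range, nsmul_eq_mul]
            push_cast
            rfl
        _ ≤ _ := by linarith [hcap cap]
    have htend : Tendsto (fun cap : ℕ => 32 * (n : ℝ) ^ 4 / t * 3 ^ n + 3 ^ n * (3 ^ n * n * (1 / 2 : ℝ) ^ cap)) atTop
        (𝓝 (32 * (n : ℝ) ^ 4 / t * 3 ^ n + 3 ^ n * (3 ^ n * n * 0))) := by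
      refine Tendsto.add tendsto_const_nhds (Tendsto.const_mul _ (Tendsto.const_mul _ ?_))
      exact tendsto_pow_atTop_nhds_zero_of_lt_one (by norm_num) (by norm_num)
    rw [mul_zero, mul_zero, add_zero] at htend
    exact ge_of_tendsto htend hev2

end Pool.Agent.Q224.PD
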